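import Mathlib

namespace Pool.Agent.Results.MP_a5fab4_co.SqrtBound

/-- The independent domination number `i(G)`: the smallest cardinality of a maximal
independent set of `G`. -/
noncomputable def indepDomNum {n : ℕ} (G : SimpleGraph (Fin n)) : ℕ :=
  sInf {k : ℕ | ∃ S : Set (Fin n), Maximal G.IsIndepSet S ∧ S.ncard = k}

/-- `μ(G)`: the smallest cardinality of a maximal clique of `G`. -/
noncomputable def minMaxCliqueNum {n : ℕ} (G : SimpleGraph (Fin n)) : ℕ :=
  sInf {k : ℕ | ∃ S : Set (Fin n), Maximal G.IsClique S ∧ S.ncard = k}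

/-- The set of all orders `n` such that every graph `G` of order `n` satisfies
`i(G) ≤ ℓ` or `μ(G) ≤ m`. -/
def goodOrders (ℓ m : ℕ) : Set ℕ :=
  {n : ℕ | ∀ G : SimpleGraph (Fin n), indepDomNum G ≤ ℓ ∨ minMaxCliqueNum G ≤ m}

/-- The lower Ramsey number `s(ℓ, m)`: the largest element of `goodOrders ℓ m`
(it really is the largest element, see `lowerRamsey_isGreatest`). -/
noncomputable def lowerRamsey (ℓ m : ℕ) : ℕ := sSup (goodOrders ℓ m)

/-- A split graph on `Fin n`: the vertices below `p` form a clique, the others are independent,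
and `v < p ≤ x` are adjacent exactly when `R v x`. -/
def splitGraph (n p : ℕ) (R : ℕ → ℕ → Prop) : SimpleGraph (Fin n) where
  Adj u v := u ≠ v ∧ ((u.val < p ∧ v.val < p) ∨ (u.val < p ∧ p ≤ v.val ∧ R u.val v.val) ∨
    (v.val < p ∧ p ≤ u.val ∧ R v.val u.val))
  symm := by
    constructor
    rintro u v ⟨h1, h2⟩
    refine ⟨h1.symm, ?_⟩
    tauto
  loopless := ⟨fun u h => h.1 rfl⟩

theorem exists_maximal_isClique {n : ℕ} (G : SimpleGraph (Fin n)) :
    ∃ S : Set (Fin n), Maximal G.IsClique S := by
  exact Set.Finite.exists_maximal (s := {S : Set (Fin n) | G.IsClique S}) (Set.toFinite _)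
    ⟨∅, by simp⟩

theorem exists_maximal_isIndepSet {n : ℕ} (G : SimpleGraph (Fin n)) :
    ∃ S : Set (Fin n), Maximal G.IsIndepSet S := by
  exact Set.Finite.exists_maximal (s := {S : Set (Fin n) | G.IsIndepSet S}) (Set.toFinite _)
    ⟨∅, by simp [SimpleGraph.IsIndepSet]⟩

theorem le_minMaxCliqueNum {n : ℕ} (G : SimpleGraph (Fin n)) (b : ℕ)
    (h : ∀ S : Set (Fin n), Maximal G.IsClique S → b ≤ S.ncard) : b ≤ minMaxCliqueNum G := by
  obtain ⟨S, hS⟩ := exists_maximal_isClique G
  refine le_csInf ⟨_, S, hS, rfl⟩ ?_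
  rintro k ⟨T, hT, rfl⟩
  exact h T hT

theorem le_indepDomNum {n : ℕ} (G : SimpleGraph (Fin n)) (b : ℕ)
    (h : ∀ S : Set (Fin n), Maximal G.IsIndepSet S → b ≤ S.ncard) : b ≤ indepDomNum G := by
  obtain ⟨S, hS⟩ := exists_maximal_isIndepSet G
  refine le_csInf ⟨_, S, hS, rfl⟩ ?_
  rintro k ⟨T, hT, rfl⟩
  exact h T hT

/-- Every maximal clique of the split graph has at least `m + 1` vertices. -/
theorem clique_bound (n p m : ℕ) (R : ℕ → ℕ → Prop) (hp : m + 1 ≤ p) (hpn : p ≤ n)
    (h : ∀ x : Fin n, p ≤ x.val → m ≤ {v : Fin n | v.val < p ∧ R v.val x.val}.ncard) :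
    m + 1 ≤ minMaxCliqueNum (splitGraph n p R) := by
  apply le_minMaxCliqueNum
  intro S hS
  by_cases hx : ∃ x ∈ S, p ≤ x.val
  · obtain ⟨x, hxS, hxp⟩ := hx
    have hsub : S ⊆ insert x {v : Fin n | v.val < p ∧ R v.val x.val} := by
      intro v hv
      by_cases hvx : v = x
      · exact Or.inl hvx
      · right
        have := hS.prop hv hxS hvx
        obtain ⟨_, h1 | h1 | h1⟩ := this
        · omega
        · exact ⟨h1.1, h1.2.2⟩
        · omega
    have hcl : (splitGraph n p R).IsClique (insert x {v : Fin n | v.val < p ∧ R v.val x.val}) := by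
      intro a ha b hb hab
      refine ⟨hab, ?_⟩
      rcases ha with rfl | ha <;> rcases hb with rfl | hb
      · exact absurd rfl hab
      · exact Or.inr (Or.inr ⟨hb.1, hxp, hb.2⟩)
      · exact Or.inr (Or.inl ⟨ha.1, hxp, ha.2⟩)
      · exact Or.inl ⟨ha.1, hb.1⟩
    have heq := hS.eq_of_subset hcl hsub
    rw [heq, Set.ncard_insert_of_notMem (by simp; omega) (Set.toFinite _)]
    have := h x hxp
    omega
  · push Not at hx
    have hcl : (splitGraph n p R).IsClique {v : Fin n | v.val < p} := by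
      intro a ha b hb hab
      exact ⟨hab, Or.inl ⟨ha, hb⟩⟩
    have heq := hS.eq_of_subset hcl (fun x hxS => hx x hxS)
    rw [heq]
    have : {v : Fin n | v.val < p}.ncard = p := by
      have : {v : Fin n | v.val < p} = ((Finset.univ.filter (fun v : Fin n => v.val < p)) : Set (Fin n)) := by
        ext; simp
      rw [this, Set.ncard_coe_finset, Fin.card_filter_val_lt]
      omega
    omega

/-- Every maximal independent set of the split graph has at least `ℓ + 1` vertices. -/
theorem indep_bound (n p ℓ : ℕ) (R : ℕ → ℕ → Prop) (hp : p + (ℓ + 1) ≤ n)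
    (h : ∀ v : Fin n, v.val < p → ℓ ≤ {x : Fin n | p ≤ x.val ∧ ¬ R v.val x.val}.ncard) :
    ℓ + 1 ≤ indepDomNum (splitGraph n p R) := by
  apply le_indepDomNum
  intro S hS
  by_cases hx : ∃ v ∈ S, v.val < p
  · obtain ⟨v, hvS, hvp⟩ := hx
    have hsub : S ⊆ insert v {x : Fin n | p ≤ x.val ∧ ¬ R v.val x.val} := by
      intro x hxS
      by_cases hvx : x = v
      · exact Or.inl hvx
      · right
        have := hS.prop hvS hxS (Ne.symm hvx)
        have hpx : p ≤ x.val := by
          by_contra hcon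
          exact this ⟨Ne.symm hvx, Or.inl ⟨hvp, by omega⟩⟩
        exact ⟨hpx, fun hR => this ⟨Ne.symm hvx, Or.inr (Or.inl ⟨hvp, hpx, hR⟩)⟩⟩
    have hcl : (splitGraph n p R).IsIndepSet (insert v {x : Fin n | p ≤ x.val ∧ ¬ R v.val x.val}) := by
      intro a ha b hb hab
      rintro ⟨_, h1⟩
      rcases ha with rfl | ha <;> rcases hb with rfl | hb
      · exact absurd rfl hab
      · rcases h1 with h1 | h1 | h1
        · have := hb.1; omega
        · exact hb.2 h1.2.2
        · have := hb.1; omega
      · rcases h1 with h1 | h1 | h1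
        · have := ha.1; omega
        · have := ha.1; omega
        · exact ha.2 h1.2.2
      · have := ha.1
        have := hb.1
        omega
    have heq := hS.eq_of_subset hcl hsub
    rw [heq, Set.ncard_insert_of_notMem (by simp; omega) (Set.toFinite _)]
    have := h v hvp
    omega
  · push Not at hx
    have hcl : (splitGraph n p R).IsIndepSet {x : Fin n | p ≤ x.val} := by
      intro a ha b hb hab
      rintro ⟨_, h1⟩
      have ha' : p ≤ a.val := ha
      have hb' : p ≤ b.val := hb
      omega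
    have heq := hS.eq_of_subset hcl (fun x hxS => hx x hxS)
    rw [heq]
    have : {v : Fin n | p ≤ v.val}.ncard = n - p := by
      have : {v : Fin n | p ≤ v.val} = ((Finset.univ.filter (fun v : Fin n => v.val < p))ᶜ : Set (Fin n)) := by
        ext; simp
      rw [this, Set.ncard_compl, Set.ncard_coe_finset, Fin.card_filter_val_lt]
      simp
      omega
    omega

/-- The construction: whenever `(ℓ + t) m ≤ p t` there is a graph of order `p + (ℓ + t)` with
`i ≥ ℓ + 1` and `μ ≥ m + 1`. -/
theorem exists_graph (ℓ m t p : ℕ) (hm : 0 < m) (ht : 0 < t) (hℓ : 0 < ℓ)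
    (hpt : (ℓ + t) * m ≤ p * t) :
    ∃ G : SimpleGraph (Fin (p + (ℓ + t))), ℓ + 1 ≤ indepDomNum G ∧ m + 1 ≤ minMaxCliqueNum G := by
  have hmp : m + 1 ≤ p := by
    by_contra hcon
    have h1 : p ≤ m := by omega
    have h2 : p * t ≤ m * t := Nat.mul_le_mul_right t h1
    have h3 : 0 < ℓ * m := Nat.mul_pos hℓ hm
    nlinarith
  have hp0 : 0 < p := by omega
  refine ⟨splitGraph (p + (ℓ + t)) p (fun v x => ∃ j, j / m = x - p ∧ j % p = v), ?_, ?_⟩
  · apply indep_bound
    · omega
    · intro v hv
      -- the complement within the independent part has at most `t` vertices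
      set A : Set (Fin (p + (ℓ + t))) :=
        {x | p ≤ x.val ∧ ∃ j, j / m = x.val - p ∧ j % p = v.val} with hA
      set B : Set (Fin (p + (ℓ + t))) :=
        {x | p ≤ x.val ∧ ¬ ∃ j, j / m = x.val - p ∧ j % p = v.val} with hB
      have hAB : A ∪ B = {x : Fin (p + (ℓ + t)) | p ≤ x.val} := by
        ext x
        constructor
        · rintro (h | h) <;> exact h.1
        · intro h
          by_cases hj : ∃ j, j / m = x.val - p ∧ j % p = v.val
          · exact Or.inl ⟨h, hj⟩
          · exact Or.inr ⟨h, hj⟩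
      have hcard : {x : Fin (p + (ℓ + t)) | p ≤ x.val}.ncard = ℓ + t := by
        have : {v : Fin (p + (ℓ + t)) | p ≤ v.val} =
            ((Finset.univ.filter (fun v : Fin (p + (ℓ + t)) => v.val < p))ᶜ : Set (Fin (p + (ℓ + t)))) := by
          ext; simp
        rw [this, Set.ncard_compl, Set.ncard_coe_finset, Fin.card_filter_val_lt]
        simp
      have hAt : A.ncard ≤ t := by
        have hch : ∀ x : Fin (p + (ℓ + t)), ∃ i : ℕ, x ∈ A → i < t ∧ (v.val + p * i) / m = x.val - p := by
          intro x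
          by_cases hx : x ∈ A
          · obtain ⟨hpx, j, hj1, hj2⟩ := hx
            refine ⟨j / p, fun _ => ⟨?_, ?_⟩⟩
            · rw [Nat.div_lt_iff_lt_mul hp0]
              have h1 : j < (x.val - p + 1) * m := by
                rw [← hj1, add_mul, one_mul]
                have := Nat.div_add_mod j m
                have h2 := Nat.mod_lt j hm
                nlinarith
              have h3 : (x.val - p + 1) * m ≤ (ℓ + t) * m := by
                apply Nat.mul_le_mul_right
                have := x.isLt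
                omega
              calc j < (x.val - p + 1) * m := h1
                _ ≤ (ℓ + t) * m := h3
                _ ≤ p * t := hpt
                _ = t * p := Nat.mul_comm _ _
            · rw [← hj2, Nat.mod_add_div]
              exact hj1
          · exact ⟨0, fun h => absurd h hx⟩
        choose f hf using hch
        have : A.ncard ≤ (Finset.range t : Set ℕ).ncard := by
          apply Set.ncard_le_ncard_of_injOn f
          · intro x hx
            simpa using (hf x hx).1
          · intro x hx y hy hxy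
            have h1 := (hf x hx).2
            have h2 := (hf y hy).2
            rw [hxy, h2] at h1
            have := hx.1
            have := hy.1
            ext
            omega
        rwa [Set.ncard_coe_finset, Finset.card_range] at this
      have := Set.ncard_union_le A B
      rw [hAB, hcard] at this
      omega
  · apply clique_bound
    · omega
    · omega
    · intro x hx
      set A : Set (Fin (p + (ℓ + t))) :=
        {v | v.val < p ∧ ∃ j, j / m = x.val - p ∧ j % p = v.val} with hA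
      have : (Finset.range m : Set ℕ).ncard ≤ A.ncard := by
        apply Set.ncard_le_ncard_of_injOn
          (fun i => (⟨((x.val - p) * m + i) % p,
            lt_of_lt_of_le (Nat.mod_lt _ hp0) (by omega)⟩ : Fin (p + (ℓ + t))))
        · intro i hi
          have hi' : i < m := by simpa using hi
          refine ⟨Nat.mod_lt _ hp0, (x.val - p) * m + i, ?_, rfl⟩
          rw [Nat.mul_comm, Nat.mul_add_div hm, Nat.div_eq_of_lt hi', add_zero]
        · intro i hi j hj hij
          have hi' : i < m := by simpa using hi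
          have hj' : j < m := by simpa using hj
          have h1 : ((x.val - p) * m + i) % p = ((x.val - p) * m + j) % p := by
            simpa using hij
          have h2 : i ≡ j [MOD p] := Nat.ModEq.add_left_cancel' _ h1
          have h3 : i % p = j % p := h2
          rwa [Nat.mod_eq_of_lt (by omega), Nat.mod_eq_of_lt (by omega)] at h3
      rwa [Set.ncard_coe_finset, Finset.card_range] at this

/-- No order `n ≥ ℓ + t + p` with `(ℓ + t) m ≤ p t` is good. -/
theorem notMem_goodOrders (ℓ m t n : ℕ) (hm : 0 < m) (ht : 0 < t) (hℓ : 0 < ℓ)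
    (hn : ℓ + t ≤ n) (hpt : (ℓ + t) * m ≤ (n - (ℓ + t)) * t) : n ∉ goodOrders ℓ m := by
  intro hmem
  obtain ⟨p, rfl⟩ : ∃ p, n = p + (ℓ + t) := ⟨n - (ℓ + t), by omega⟩
  rw [Nat.add_sub_cancel] at hpt
  obtain ⟨G, hG1, hG2⟩ := exists_graph ℓ m t p hm ht hℓ hpt
  rcases hmem G with h | h <;> omega

/-- Sanity check: for positive `ℓ, m` the number `s(ℓ, m)` exists, that is,
`lowerRamsey ℓ m` is the largest element of `goodOrders ℓ m`. -/
theorem lowerRamsey_isGreatest (ℓ m : ℕ) (hℓ : 0 < ℓ) (hm : 0 < m) :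
    IsGreatest (goodOrders ℓ m) (lowerRamsey ℓ m) := by
  have hbdd : BddAbove (goodOrders ℓ m) := by
    refine ⟨2 * (ℓ + m), ?_⟩
    intro n hn
    by_contra hcon
    push Not at hcon
    refine notMem_goodOrders ℓ m m n hm hm hℓ (by omega) ?_ hn
    apply Nat.mul_le_mul_right
    omega
  have hne : (goodOrders ℓ m).Nonempty := by
    refine ⟨0, fun G => Or.inl ?_⟩
    have : indepDomNum G ≤ 0 := by
      apply Nat.sInf_le
      obtain ⟨S, hS⟩ := exists_maximal_isIndepSet G
      refine ⟨S, hS, ?_⟩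
      have := Set.ncard_le_card S
      simpa using this
    omega
  exact ⟨Nat.sSup_mem hne hbdd, fun n hn => le_csSup hbdd hn⟩

/-- A new upper bound, `s(ℓ, m) < (√ℓ + √m)²` for all positive `ℓ, m`. It improves the bound
`s(ℓ, m) < 2 (ℓ + m)` whenever `ℓ ≠ m`. -/
theorem result (ℓ m : ℕ) (hℓ : 0 < ℓ) (hm : 0 < m) :
    (lowerRamsey ℓ m : ℝ) < (Real.sqrt ℓ + Real.sqrt m) ^ 2 := by
  by_contra hcon
  push Not at hcon
  have hmem := (lowerRamsey_isGreatest ℓ m hℓ hm).1
  set n := lowerRamsey ℓ m with hn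
  -- `n ≥ ℓ + m + 2 √(ℓ m)`
  have hsl : Real.sqrt ℓ ^ 2 = ℓ := Real.sq_sqrt (Nat.cast_nonneg ℓ)
  have hsm : Real.sqrt m ^ 2 = m := Real.sq_sqrt (Nat.cast_nonneg m)
  have hslnn : 0 ≤ Real.sqrt ℓ := Real.sqrt_nonneg _
  have hsmnn : 0 ≤ Real.sqrt m := Real.sqrt_nonneg _
  have h1 : (ℓ : ℝ) + m + 2 * (Real.sqrt ℓ * Real.sqrt m) ≤ n := by nlinarith
  have h2 : ((ℓ + m : ℕ) : ℝ) ≤ n := by
    push_cast
    nlinarith [mul_nonneg hslnn hsmnn]
  have h3 : ℓ + m ≤ n := by exact_mod_cast h2
  obtain ⟨k, hk⟩ : ∃ k, n = ℓ + m + k := ⟨n - (ℓ + m), by omega⟩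
  have h4 : 2 * (Real.sqrt ℓ * Real.sqrt m) ≤ k := by
    rw [hk] at h1
    push_cast at h1
    linarith
  have h5 : (4 : ℝ) * (ℓ * m) ≤ k * k := by
    have h6 : (2 * (Real.sqrt ℓ * Real.sqrt m)) * (2 * (Real.sqrt ℓ * Real.sqrt m)) ≤ k * k :=
      mul_le_mul h4 h4 (by positivity) (by positivity)
    calc (4 : ℝ) * (ℓ * m) = 4 * (Real.sqrt ℓ ^ 2 * Real.sqrt m ^ 2) := by rw [hsl, hsm]
      _ = (2 * (Real.sqrt ℓ * Real.sqrt m)) * (2 * (Real.sqrt ℓ * Real.sqrt m)) := by ring
      _ ≤ k * k := h6
  have h7 : 4 * (ℓ * m) ≤ k * k := by exact_mod_cast h5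
  set N := ℓ * m with hN
  have hNpos : 0 < N := Nat.mul_pos hℓ hm
  obtain ⟨t, ht1, ht2⟩ : ∃ t : ℕ, t * t ≤ N ∧ N < (t + 1) * (t + 1) :=
    ⟨Nat.sqrt N, Nat.sqrt_le N, Nat.lt_succ_sqrt N⟩
  have htpos : 0 < t := by
    rcases Nat.eq_zero_or_pos t with h0 | h0
    · subst h0; omega
    · exact h0
  have h8 : 2 * t ≤ k := by
    by_contra hc
    push Not at hc
    nlinarith
  obtain ⟨j, hj⟩ : ∃ j, k = t + j := ⟨k - t, by omega⟩
  have hjt : t ≤ j := by omega
  have h9 : N ≤ j * t := by
    by_contra hc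
    push Not at hc
    subst hj
    obtain ⟨d, rfl⟩ : ∃ d, j = t + d := ⟨j - t, by omega⟩
    have h10 : 2 ≤ d := by
      by_contra hd
      have : d = 0 ∨ d = 1 := by omega
      rcases this with rfl | rfl <;> nlinarith
    nlinarith
  refine notMem_goodOrders ℓ m t n hm htpos hℓ (by omega) ?_ hmem
  have h11 : n - (ℓ + t) = m + j := by omega
  rw [h11]
  nlinarith

end Pool.Agent.Results.MP_a5fab4_co.SqrtBound
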